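import Pool.Agent.N299.ND.Stm
import Pool.Agent.Helper757.GL.Quot

/-!
Project ND (helper299), part GGH: local `𝒵`-stability implies the global Glimm halving property.
Lean proof: helper768.

For each `n` take local data `c₀, c₁, s` for `a` with error `1 / (n + 1)` and put
`D = a (c₀² - c₁* c₁) a`, `x = D D₋ (c₁* c₀) D₊ D`; this has square zero.  In the algebra of bounded
sequences modulo the sequences whose distance to the closed ideals generated by `x` tends to zero,
all relations are exact, and they give `a = 0`.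
-/

set_option autoImplicit false

open scoped BoundedContinuousFunction Topology
open Filter

noncomputable section

namespace Pool.Agent.N768.ND.GGH

open Pool.Agent.N299 Pool.Agent.N299.ND
open Pool.Agent.Helper757.GL

section alg

variable {E : Type} [CStarAlgebra E]

/-- a self-adjoint nilpotent element is zero -/
lemma nil_sa {x : E} (hx : star x = x) (n : ℕ) (h : x ^ (2 ^ n) = 0) : x = 0 := by
  have h1 : IsSelfAdjoint x := hx
  have h2 := h1.norm_pow_two_pow n
  rw [h, norm_zero] at h2
  have h3 : ‖x‖ = 0 := by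
    by_contra h0
    exact (pow_ne_zero _ h0) h2.symm
  exact norm_eq_zero.1 h3

lemma parts {h k : E} (hh : Pos h) (hk : Pos k) (hhk : h * k = 0) :
    cfc (fun t : ℝ => max t 0) (h - k) = h ∧ cfc (fun t : ℝ => max (-t) 0) (h - k) = k := by
  let _ : PartialOrder E := CStarAlgebra.spectralOrder E
  let _ : StarOrderedRing E := CStarAlgebra.spectralOrderedRing E
  rw [pos_iff] at hh hk
  have h1 := CFC.posPart_negPart_unique (A := E) (a := h - k) rfl hhk hh hk
  rw [CFC.posPart_def, CFC.negPart_def, cfcₙ_eq_cfc, cfcₙ_eq_cfc] at h1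
  exact h1

lemma alg {A C K S : E} (hA : star A = A) (hC : star C = C) (c1 : C * A = A * C)
    (c2 : K * A = A * K) (c3 : S * A = A * S) (r1 : (K * star K - C * C) * A = 0)
    (r2 : C * star K * A = 0)
    (r4 : (star S * S + (star C * C + star K * K)) * A = A) (r5 : (C * S - S) * A = 0)
    (hx : (A * (C * C - star K * K) * A) *
      (cfc (fun t : ℝ => max (-t) 0) (A * (C * C - star K * K) * A) * (star K * C) *
      cfc (fun t : ℝ => max t 0) (A * (C * C - star K * K) * A)) *
      (A * (C * C - star K * K) * A) = 0) : A = 0 := by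
  obtain ⟨G, hG⟩ : ∃ G, G = C * A := ⟨_, rfl⟩
  obtain ⟨W, hW⟩ : ∃ W, W = K * A := ⟨_, rfl⟩
  have c2' : star K * A = A * star K := by
    have := congrArg star c2
    rw [star_mul, star_mul, hA] at this
    exact this.symm
  have hGs : star G = G := by rw [hG, star_mul, hA, hC, c1]
  have hWs : star W = star K * A := by rw [hW, star_mul, hA, c2']
  have r1' : K * star K * A = C * C * A := by
    rw [sub_mul, sub_eq_zero] at r1
    exact r1
  have hWW : W * star W = G * G := by
    calc W * star W = K * (A * star K) * A := by rw [hWs, hW]; simp only [mul_assoc]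
      _ = (K * star K * A) * A := by rw [← c2']; simp only [mul_assoc]
      _ = C * (C * A) * A := by rw [r1']; simp only [mul_assoc]
      _ = G * G := by rw [c1, hG]; simp only [mul_assoc]
  have hD : A * (C * C - star K * K) * A = star G * G - star W * W := by
    rw [mul_sub, sub_mul, hGs, hWs, hG, hW]
    congr 1
    · rw [← mul_assoc, ← c1]; simp only [mul_assoc]
    · rw [← mul_assoc, ← c2']; simp only [mul_assoc]
  have hGW : G * star W = 0 := by
    calc G * star W = C * (A * star K) * A := by rw [hWs, hG]; simp only [mul_assoc]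
      _ = (C * star K * A) * A := by rw [← c2']; simp only [mul_assoc]
      _ = 0 := by rw [r2, zero_mul]
  have hhk : (star G * G) * (star W * W) = 0 := by
    calc (star G * G) * (star W * W) = star G * (G * star W) * W := by simp only [mul_assoc]
      _ = 0 := by rw [hGW, mul_zero, zero_mul]
  obtain ⟨p1, p2⟩ := parts (pos_star_mul G) (pos_star_mul W) hhk
  rw [hD, p1, p2] at hx
  have hx2 : (star W * W) * (star W * W) * (star K * C) * ((star G * G) * (star G * G)) = 0 := by
    have e : (star G * G - star W * W) *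
        (star W * W * (star K * C) * (star G * G)) * (star G * G - star W * W) =
        ((star G * G) * (star W * W)) * (star K * C) * (star G * G) * (star G * G - star W * W)
        - (star W * W) * (star W * W) * (star K * C) * ((star G * G) * (star G * G))
        + (star W * W) * (star W * W) * (star K * C) * ((star G * G) * (star W * W)) := by
      simp only [mul_assoc, mul_sub, sub_mul]
      abel
    rw [e, hhk] at hx
    simpa using hx
  have hY : W * (star K * C) = C * C * G := by
    calc W * (star K * C) = K * (A * star K) * C := by rw [hW]; simp only [mul_assoc]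
      _ = (K * star K * A) * C := by rw [← c2']; simp only [mul_assoc]
      _ = C * C * (A * C) := by rw [r1']; simp only [mul_assoc]
      _ = C * C * G := by rw [← c1, hG]
  have hcom : Commute C A := c1
  have hpow : ∀ n : ℕ, G ^ n = C ^ n * A ^ n := fun n => by rw [hG]; exact hcom.mul_pow n
  have h9 : star W * (G * G) * (C * C * G * (G * G * (G * G)) * (A * A)) = 0 := by
    rw [hGs] at hx2
    calc star W * (G * G) * (C * C * G * (G * G * (G * G)) * (A * A))
        = star W * (W * star W) * (W * (star K * C)) * (G * G * (G * G)) * (A * A) := by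
          rw [hWW, hY]; simp only [mul_assoc]
      _ = ((star W * W) * (star W * W) * (star K * C) * ((G * G) * (G * G))) * (A * A) := by
          simp only [mul_assoc]
      _ = 0 := by rw [hx2, zero_mul]
  have h7 : C * C * G * (G * G * (G * G)) * (A * A) = G ^ 7 := by
    have e : C * C * G * (G * G * (G * G)) * (A * A) = C ^ 2 * G ^ 5 * A ^ 2 := by
      simp only [pow_succ, pow_zero, one_mul, mul_assoc]
    rw [e, hpow 5, hpow 7, ← mul_assoc (C ^ 2), ← pow_add, mul_assoc, ← pow_add]
  have h11 : G ^ 11 = 0 := by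
    rw [h7] at h9
    calc G ^ 11 = (G * G) * ((G * G) * G ^ 7) := by
          rw [← pow_two, ← pow_add, ← pow_add]
      _ = (W * star W) * ((G * G) * G ^ 7) := by rw [hWW]
      _ = W * (star W * (G * G) * G ^ 7) := by simp only [mul_assoc]
      _ = 0 := by rw [h9, mul_zero]
  have hG0 : G = 0 := by
    apply nil_sa hGs 4
    rw [show 2 ^ 4 = 11 + 5 by norm_num, pow_add, h11, zero_mul]
  have hW0 : K * A = 0 := by
    rw [hG0, mul_zero] at hWW
    rw [← hW]
    exact (CStarRing.mul_star_self_eq_zero_iff W).1 hWW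
  have hC0 : C * A = 0 := by rw [← hG]; exact hG0
  have hS0 : S * A = 0 := by
    rw [sub_mul, sub_eq_zero] at r5
    rw [← r5, mul_assoc, c3, ← mul_assoc, hC0, zero_mul]
  rw [← r4, add_mul, add_mul, mul_assoc, mul_assoc, mul_assoc, hS0, hC0, hW0]
  simp

end alg

section ideals

variable {B : Type} [CStarAlgebra B]

/-- the closed ideal generated by `x` -/
def J (x : B) : Submodule ℂ B :=
  (Submodule.span ℂ {y : B | ∃ u v : B, y = u * x * v}).topologicalClosure

lemma J_ci (x : B) : CI (J x) where
  closed := Submodule.isClosed_topologicalClosure _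
  hl := by
    intro a y hy
    refine map_mem_closure (f := fun z => a * z) (continuous_const_mul a) hy fun z hz => ?_
    induction hz using Submodule.span_induction with
    | mem z hz =>
      obtain ⟨u, v, rfl⟩ := hz
      exact Submodule.subset_span ⟨a * u, v, by simp only [mul_assoc]⟩
    | zero => simp
    | add z z' _ _ h h' =>
      simp only [mul_add]
      exact Submodule.add_mem _ h h'
    | smul c z _ h =>
      simp only [mul_smul_comm]
      exact Submodule.smul_mem _ c h
  hr := by
    intro a y hy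
    refine map_mem_closure (f := fun z => z * a) (continuous_mul_const a) hy fun z hz => ?_
    induction hz using Submodule.span_induction with
    | mem z hz =>
      obtain ⟨u, v, rfl⟩ := hz
      exact Submodule.subset_span ⟨u, v * a, by simp only [mul_assoc]⟩
    | zero => simp
    | add z z' _ _ h h' =>
      simp only [add_mul]
      exact Submodule.add_mem _ h h'
    | smul c z _ h =>
      simp only [smul_mul_assoc]
      exact Submodule.smul_mem _ c h

lemma mem_J (x : B) : x ∈ J x :=
  subset_closure (Submodule.subset_span ⟨1, 1, by simp⟩)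

lemma J_sub (x y : B) (hy : y ∈ J x) :
    y ∈ closure {y : B | ∃ (k : ℕ) (u v : Fin k → B), y = ∑ i, u i * x * v i} := by
  refine closure_mono ?_ hy
  intro z hz
  induction hz using Submodule.span_induction with
  | mem z hz =>
    obtain ⟨u, v, rfl⟩ := hz
    exact ⟨1, fun _ => u, fun _ => v, by simp⟩
  | zero => exact ⟨0, Fin.elim0, Fin.elim0, by simp⟩
  | add z z' _ _ h h' =>
    obtain ⟨k, u, v, rfl⟩ := h
    obtain ⟨k', u', v', rfl⟩ := h'
    refine ⟨k + k', Fin.append u u', Fin.append v v', ?_⟩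
    rw [Fin.sum_univ_add]
    simp only [Fin.append_left, Fin.append_right]
  | smul c z _ h =>
    obtain ⟨k, u, v, rfl⟩ := h
    refine ⟨k, fun i => c • u i, v, ?_⟩
    rw [Finset.smul_sum]
    simp only [smul_mul_assoc]

/-- the quotient map as a star homomorphism -/
def mkS {I : Submodule ℂ B} (H : CI I) : B →⋆ₐ[ℂ] Q H :=
  { mkHom H with map_star' := mk_star H }

lemma mkS_apply {I : Submodule ℂ B} (H : CI I) (b : B) : mkS H b = mk H b := rfl

/-- sequences whose distance to the ideals tends to zero -/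
def NN {I : ℕ → Submodule ℂ B} (H : ∀ n, CI (I n)) : Submodule ℂ (ℕ →ᵇ B) where
  carrier := {u | Tendsto (fun n => ‖mk (H n) (u n)‖) atTop (𝓝 0)}
  add_mem' := by
    intro u v hu hv
    have hu' : Tendsto (fun n => ‖mk (H n) (u n)‖) atTop (𝓝 0) := hu
    have hv' : Tendsto (fun n => ‖mk (H n) (v n)‖) atTop (𝓝 0) := hv
    have h := hu'.add hv'
    rw [add_zero] at h
    refine squeeze_zero (fun n => norm_nonneg _) (fun n => ?_) h
    exact norm_add_le (mk (H n) (u n)) (mk (H n) (v n))
  zero_mem' := by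
    have : (fun n => ‖mk (H n) ((0 : ℕ →ᵇ B) n)‖) = fun _ => (0 : ℝ) := by
      funext n
      show ‖mk (H n) 0‖ = 0
      rw [mk_zero, norm_zero]
    show Tendsto (fun n => ‖mk (H n) ((0 : ℕ →ᵇ B) n)‖) atTop (𝓝 0)
    rw [this]
    exact tendsto_const_nhds
  smul_mem' := by
    intro c u hu
    have hu' : Tendsto (fun n => ‖mk (H n) (u n)‖) atTop (𝓝 0) := hu
    have h := Filter.Tendsto.const_mul ‖c‖ hu'
    rw [mul_zero] at h
    refine squeeze_zero (fun n => norm_nonneg _) (fun n => ?_) h
    exact norm_smul_le c (mk (H n) (u n))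

lemma mem_NN {I : ℕ → Submodule ℂ B} (H : ∀ n, CI (I n)) (u : ℕ →ᵇ B) :
    u ∈ NN H ↔ Tendsto (fun n => ‖mk (H n) (u n)‖) atTop (𝓝 0) := Iff.rfl

lemma NN_ci {I : ℕ → Submodule ℂ B} (H : ∀ n, CI (I n)) : CI (NN H) where
  closed := by
    apply isClosed_of_closure_subset
    intro u hu
    rw [Metric.mem_closure_iff] at hu
    show u ∈ NN H
    rw [mem_NN, Metric.tendsto_atTop]
    intro ε hε
    obtain ⟨u', hu', hd⟩ := hu (ε / 2) (half_pos hε)
    obtain ⟨n0, hn0⟩ := (Metric.tendsto_atTop.1 ((mem_NN H u').1 hu')) (ε / 2) (half_pos hε)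
    refine ⟨n0, fun n hn => ?_⟩
    have h1 := hn0 n hn
    rw [Real.dist_eq, sub_zero, abs_norm] at h1 ⊢
    have h2 : mk (H n) (u n) = mk (H n) (u n - u' n) + mk (H n) (u' n) := by
      rw [← mk_add, sub_add_cancel]
    rw [h2]
    have h3 : ‖mk (H n) (u n - u' n)‖ ≤ dist u u' := by
      refine (norm_mk_le _ _).trans ?_
      rw [← dist_eq_norm]
      exact BoundedContinuousFunction.dist_coe_le_dist n
    have h4 := norm_add_le (mk (H n) (u n - u' n)) (mk (H n) (u' n))
    linarith
  hl := by
    intro a u hu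
    have h := Filter.Tendsto.const_mul ‖a‖ ((mem_NN H u).1 hu)
    rw [mul_zero] at h
    refine squeeze_zero (fun n => norm_nonneg _) (fun n => ?_) h
    calc ‖mk (H n) ((a * u) n)‖ = ‖mk (H n) (a n) * mk (H n) (u n)‖ := rfl
      _ ≤ ‖mk (H n) (a n)‖ * ‖mk (H n) (u n)‖ := norm_mul_le _ _
      _ ≤ ‖a‖ * ‖mk (H n) (u n)‖ := by
          gcongr
          exact (norm_mk_le _ _).trans (a.norm_coe_le_norm n)
  hr := by
    intro a u hu
    have h := Filter.Tendsto.mul_const ‖a‖ ((mem_NN H u).1 hu)
    rw [zero_mul] at h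
    refine squeeze_zero (fun n => norm_nonneg _) (fun n => ?_) h
    calc ‖mk (H n) ((u * a) n)‖ = ‖mk (H n) (u n) * mk (H n) (a n)‖ := rfl
      _ ≤ ‖mk (H n) (u n)‖ * ‖mk (H n) (a n)‖ := norm_mul_le _ _
      _ ≤ ‖mk (H n) (u n)‖ * ‖a‖ := by
          gcongr
          exact (norm_mk_le _ _).trans (a.norm_coe_le_norm n)

lemma null {I : ℕ → Submodule ℂ B} (H : ∀ n, CI (I n)) (u : ℕ →ᵇ B)
    (hu : ∀ n : ℕ, ‖u n‖ ≤ 1 / ((n : ℝ) + 1)) : mkS (NN_ci H) u = 0 := by
  have h1 : u ∈ NN H := by
    rw [mem_NN]
    refine squeeze_zero (fun n => norm_nonneg _) (fun n => ?_)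
      (tendsto_one_div_add_atTop_nhds_zero_nat (𝕜 := ℝ))
    exact (norm_mk_le _ _).trans (hu n)
  exact (mkHom_eq_zero (NN_ci H) u).2 h1

end ideals

/-- the functional calculus of an element of small norm -/
lemma cfc_small {E : Type} [CStarAlgebra E] {b : E} {ε : ℝ} (h : ‖b‖ ≤ ε) :
    cfc (fun t : ℝ => max (t - ε) 0) b = 0 := by
  rcases subsingleton_or_nontrivial E with hs | hs
  · exact Subsingleton.elim _ _
  · rw [← cfc_zero ℝ b]
    refine cfc_congr fun t ht => ?_
    have h1 := spectrum.norm_le_norm_of_mem ht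
    rw [Real.norm_eq_abs] at h1
    have h2 := le_abs_self t
    simp only [Pi.zero_apply, sup_eq_right]
    linarith

lemma ex_parts {E : Type} [CStarAlgebra E] (D : E) (hDs : IsSelfAdjoint D) :
    ∃ P M : E, P * D * D * M = 0 ∧ ∀ (R : Type) [CStarAlgebra R] (f : E →⋆ₐ[ℂ] R),
      f P = cfc (fun t : ℝ => max t 0) (f D) ∧ f M = cfc (fun t : ℝ => max (-t) 0) (f D) := by
  refine ⟨cfc (fun t : ℝ => max t 0) D, cfc (fun t : ℝ => max (-t) 0) D, ?_, fun R _ f => ?_⟩
  · have e : cfc (fun t : ℝ => max t 0) D * D * D * cfc (fun t : ℝ => max (-t) 0) D =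
        cfc (fun t : ℝ => max t 0 * t * t * max (-t) 0) D := by
      rw [cfc_mul (R := ℝ) (fun t : ℝ => max t 0 * t * t) (fun t => max (-t) 0) D (by fun_prop)
        (by fun_prop), cfc_mul (R := ℝ) (fun t : ℝ => max t 0 * t) (fun t => t) D (by fun_prop)
        (by fun_prop), cfc_mul (R := ℝ) (fun t : ℝ => max t 0) (fun t => t) D (by fun_prop)
        (by fun_prop), cfc_id' ℝ D]
    rw [e, ← cfc_zero ℝ D]
    refine cfc_congr fun t _ => ?_
    rcases le_total t 0 with h | h
    · simp [h]
    · simp [h]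
  · exact ⟨map_cfc' f _ (by fun_prop) D hDs, map_cfc' f _ (by fun_prop) D hDs⟩

theorem t_GGH : S_GGH := by
  intro B _ I hI hL a ha hpos ε hε
  have has : star a = a := hpos.sa
  have hδ : ∀ n : ℕ, (0 : ℝ) < 1 / ((n : ℝ) + 1) := fun n => by positivity
  have hdat := fun n : ℕ => hL 1 {a} (1 / ((n : ℝ) + 1))
    (fun b hb => by rw [Finset.mem_singleton.1 hb]; exact ha) (hδ n)
  choose c s _ _ hcn hsn hd hrel using hdat
  have hrel' := fun n => hrel n a (Finset.mem_singleton_self a)
  -- bounded sequences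
  obtain ⟨A, hA⟩ : ∃ A : ℕ →ᵇ B, ∀ n, A n = a :=
    ⟨BoundedContinuousFunction.const ℕ a, fun n => rfl⟩
  obtain ⟨C, hC⟩ : ∃ C : ℕ →ᵇ B, ∀ n, C n = c n 0 :=
    ⟨BoundedContinuousFunction.ofNormedAddCommGroupDiscrete (fun n => c n 0) 1
      (fun n => hcn n 0), fun n => rfl⟩
  obtain ⟨K, hK⟩ : ∃ K : ℕ →ᵇ B, ∀ n, K n = c n 1 :=
    ⟨BoundedContinuousFunction.ofNormedAddCommGroupDiscrete (fun n => c n 1) 1
      (fun n => hcn n 1), fun n => rfl⟩
  obtain ⟨S, hS⟩ : ∃ S : ℕ →ᵇ B, ∀ n, S n = s n :=
    ⟨BoundedContinuousFunction.ofNormedAddCommGroupDiscrete s 1 hsn, fun n => rfl⟩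
  have hAs : star A = A := by
    ext n
    show star (A n) = A n
    rw [hA, has]
  have hCs : star C = C := by
    ext n
    show star (C n) = C n
    obtain ⟨d, _, hd⟩ := hd n
    rw [hC, hd, star_mul, star_star]
  obtain ⟨D, hD⟩ : ∃ D, D = A * (C * C - star K * K) * A := ⟨_, rfl⟩
  have hDs : IsSelfAdjoint D := by
    show star D = D
    rw [hD]
    simp only [star_mul, star_sub, star_star, hAs, hCs, mul_assoc]
  obtain ⟨P, M, hPDDM, hPM⟩ := ex_parts D hDs
  obtain ⟨X, hX⟩ : ∃ X, X = D * (M * (star K * C) * P) * D := ⟨_, rfl⟩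
  have hXX : X * X = 0 := by
    calc X * X = D * (M * (star K * C)) * (P * D * D * M) * (star K * C) * P * D := by
          rw [hX]; simp only [mul_assoc]
      _ = 0 := by rw [hPDDM]; simp
  -- the ideals
  obtain ⟨H, hH⟩ : ∃ H : ∀ n : ℕ, CI (J (X n)), True := ⟨fun n => J_ci (X n), trivial⟩
  set q := mkS (NN_ci H) with hq
  have hqX : q X = 0 := by
    refine (mkHom_eq_zero (NN_ci H) X).2 ?_
    rw [mem_NN]
    have e : (fun n => ‖mk (H n) (X n)‖) = fun _ => (0 : ℝ) := by
      funext n
      have h1 : mk (H n) (X n) = 0 := (mkHom_eq_zero (H n) (X n)).2 (mem_J (X n))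
      rw [h1, norm_zero]
    rw [e]
    exact tendsto_const_nhds
  have hmain : q A = 0 := by
    refine alg (C := q C) (K := q K) (S := q S) ?_ ?_ ?_ ?_ ?_ ?_ ?_ ?_ ?_ ?_
    · rw [← map_star, hAs]
    · rw [← map_star, hCs]
    · rw [← map_mul, ← map_mul, ← sub_eq_zero, ← map_sub]
      refine null H _ fun n => ?_
      show ‖C n * A n - A n * C n‖ ≤ _
      rw [hC, hA]
      exact (hrel' n).1 0
    · rw [← map_mul, ← map_mul, ← sub_eq_zero, ← map_sub]
      refine null H _ fun n => ?_
      show ‖K n * A n - A n * K n‖ ≤ _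
      rw [hK, hA]
      exact (hrel' n).1 1
    · rw [← map_mul, ← map_mul, ← sub_eq_zero, ← map_sub]
      refine null H _ fun n => ?_
      show ‖S n * A n - A n * S n‖ ≤ _
      rw [hS, hA]
      exact (hrel' n).2.1
    · rw [← map_star, ← map_mul, ← map_mul, ← map_sub, ← map_mul]
      refine null H _ fun n => ?_
      show ‖(K n * star (K n) - C n * C n) * A n‖ ≤ _
      rw [hK, hC, hA]
      exact (hrel' n).2.2.1 1
    · rw [← map_star, ← map_mul, ← map_mul]
      refine null H _ fun n => ?_
      show ‖C n * star (K n) * A n‖ ≤ _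
      rw [hK, hC, hA]
      exact (hrel' n).2.2.2.1 0 1 (by decide)
    · rw [← map_star, ← map_star, ← map_star, ← map_mul, ← map_mul, ← map_mul, ← map_add,
        ← map_add, ← map_mul, ← sub_eq_zero, ← map_sub]
      refine null H _ fun n => ?_
      show ‖(star (S n) * S n + (star (C n) * C n + star (K n) * K n)) * A n - A n‖ ≤ _
      rw [hK, hC, hA, hS]
      have := (hrel' n).2.2.2.2.1
      rwa [Fin.sum_univ_two] at this
    · rw [← map_mul, ← map_sub, ← map_mul]
      refine null H _ fun n => ?_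
      show ‖(C n * S n - S n) * A n‖ ≤ _
      rw [hC, hA, hS]
      exact (hrel' n).2.2.2.2.2
    · have e : q A * (q C * q C - star (q K) * q K) * q A = q D := by
        rw [hD]
        simp only [map_mul, map_sub, map_star]
      rw [e, ← (hPM _ q).1, ← (hPM _ q).2, ← map_star, ← map_mul, ← map_mul, ← map_mul,
        ← map_mul, ← map_mul, ← hX]
      exact hqX
  have hmem : A ∈ NN H := (mkHom_eq_zero (NN_ci H) A).1 hmain
  obtain ⟨n, hn⟩ := ((mem_NN H A).1 hmem |>.eventually_lt_const hε).exists
  rw [hA] at hn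
  refine ⟨X n, ?_, ?_, ?_⟩
  · apply subset_closure
    refine ⟨(c n 0 * c n 0 - star (c n 1) * c n 1) * a * (M n * (star (K n) * C n) * P n) *
      (a * (c n 0 * c n 0 - star (c n 1) * c n 1)), ?_⟩
    have e1 : D n = a * (c n 0 * c n 0 - star (c n 1) * c n 1) * a := by
      rw [hD]
      show A n * (C n * C n - star (K n) * K n) * A n = _
      rw [hA, hC, hK]
    have e2 : X n = D n * (M n * (star (K n) * C n) * P n) * D n := by rw [hX]; rfl
    rw [e2, e1]
    simp only [mul_assoc]
  · have := congrArg (fun u : ℕ →ᵇ B => u n) hXX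
    exact this
  · apply J_sub
    rw [← mkHom_eq_zero (H n)]
    show mkS (H n) _ = 0
    rw [map_cfc' (mkS (H n)) _ (by fun_prop) a has]
    exact cfc_small hn.le

end Pool.Agent.N768.ND.GGH

end
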