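import Pool.Agent.N627.ND.Stm

/-!
# Project ND (helper627), part M1: from near pairs and pieces to plain types (helper768)
-/

set_option autoImplicit false

namespace Pool.Agent.N768.ND

open Pool.Agent.N627.ND

/-- the graph of the near pairs -/
def near {V : Type} (G : SimpleGraph V) (r : ℕ) {n : ℕ} (z : Fin n → V) : SimpleGraph (Fin n) where
  Adj i k := i ≠ k ∧ G.edist (z i) (z k) ≤ (r : ℕ∞)
  symm := ⟨fun _ _ h => ⟨h.1.symm, by rw [SimpleGraph.edist_comm]; exact h.2⟩⟩
  loopless := ⟨fun _ h => h.1 rfl⟩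

theorem edist_walk {V : Type} (G : SimpleGraph V) (r : ℕ) {n : ℕ} (z : Fin n → V)
    (H : SimpleGraph (Fin n)) (hH : ∀ i k, H.Adj i k → G.edist (z i) (z k) ≤ (r : ℕ∞))
    {i k : Fin n} (p : H.Walk i k) : G.edist (z i) (z k) ≤ ((p.length * r : ℕ) : ℕ∞) := by
  induction p with
  | nil => simp
  | cons h p ih =>
    refine (SimpleGraph.edist_triangle (v := z _)).trans ((add_le_add (hH _ _ h) ih).trans ?_)
    rw [SimpleGraph.Walk.length_cons]
    have e : (p.length + 1) * r = r + p.length * r := by ring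
    rw [e]
    push_cast
    exact le_rfl

theorem edist_reach {V : Type} (G : SimpleGraph V) (r : ℕ) {n : ℕ} (z : Fin n → V)
    (H : SimpleGraph (Fin n)) (hH : ∀ i k, H.Adj i k → G.edist (z i) (z k) ≤ (r : ℕ∞))
    {i k : Fin n} (h : H.Reachable i k) : G.edist (z i) (z k) ≤ ((n * r : ℕ) : ℕ∞) := by
  classical
  obtain ⟨p, hp⟩ := h.exists_isPath
  have h1 := hp.length_lt
  rw [Fintype.card_fin] at h1
  refine (edist_walk G r z H hH p).trans ?_
  have h2 : p.length * r ≤ n * r := Nat.mul_le_mul_right r h1.le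
  exact_mod_cast h2

theorem m1 (hFIN : S_FIN) (hTO : S_TO) (hCO : S_CO) (hSB : S_SB) : S_M1 := by
  classical
  intro K _ q n Q hnQ
  have hT : Finite (TT K Q q n) := (hFIN K Q q n).2
  have hι : Fintype ((Fin n × Fin n) ⊕
      {x : Finset (Fin n) × Fin n × TT K Q q n // x.2.1 ∈ x.1}) := Fintype.ofFinite _
  refine ⟨Fintype.card ((Fin n × Fin n) ⊕
      {x : Finset (Fin n) × Fin n × TT K Q q n // x.2.1 ∈ x.1}), ?_⟩
  intro V _ G κ A B z s hs hN hY Θ
  choose Y hY1 hY2 using hY
  refine hSB A B ((Fin n × Fin n) ⊕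
      {x : Finset (Fin n) × Fin n × TT K Q q n // x.2.1 ∈ x.1}) s
    (Sum.elim (fun p a b => G.edist (z a b p.1) (z a b p.2) ≤ ((6 * 6 ^ q : ℕ) : ℕ∞))
      (fun x => Y x.1.1 x.1.2.1 x.1.2.2 x.2)) _ hs ?_ ?_
  · rintro (p | x)
    · exact hN p.1 p.2
    · exact hY1 _ _ _ x.2
  · intro a b a' b' hag
    have hD : ∀ i k, G.edist (z a b i) (z a b k) ≤ ((6 * 6 ^ q : ℕ) : ℕ∞) ↔
        G.edist (z a' b' i) (z a' b' k) ≤ ((6 * 6 ^ q : ℕ) : ℕ∞) := fun i k => hag (Sum.inl (i, k))
    have hYY : ∀ (I : Finset (Fin n)) (i : Fin n) (θ : TT K Q q n) (hi : i ∈ I),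
        Y I i θ hi a b ↔ Y I i θ hi a' b' := fun I i θ hi => hag (Sum.inr ⟨(I, i, θ), hi⟩)
    obtain ⟨H, hH⟩ : ∃ H : SimpleGraph (Fin n), H = near G (6 * 6 ^ q) (z a b) := ⟨_, rfl⟩
    have hHz : ∀ i k, H.Adj i k → G.edist (z a b i) (z a b k) ≤ ((6 * 6 ^ q : ℕ) : ℕ∞) := by
      intro i k h
      rw [hH] at h
      exact h.2
    have hHz' : ∀ i k, H.Adj i k → G.edist (z a' b' i) (z a' b' k) ≤ ((6 * 6 ^ q : ℕ) : ℕ∞) :=
      fun i k h => (hD i k).1 (hHz i k h)
    obtain ⟨f, hf⟩ := exists_injective_nat H.ConnectedComponent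
    obtain ⟨π, hπ⟩ : ∃ π : Fin n → ℕ, ∀ i k, π i = π k ↔ H.Reachable i k := by
      refine ⟨fun i => f (H.connectedComponentMk i), fun i k => ?_⟩
      rw [hf.eq_iff]
      exact SimpleGraph.ConnectedComponent.eq
    have hfar : ∀ i k, π i ≠ π k → ¬ G.edist (z a b i) (z a b k) ≤ ((6 * 6 ^ q : ℕ) : ℕ∞) := by
      intro i k hik h
      apply hik
      rw [hπ]
      have hne : i ≠ k := fun e => hik (by rw [e])
      have hadj : H.Adj i k := by
        rw [hH]
        exact ⟨hne, h⟩
      exact hadj.reachable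
    have hTT : T G κ Q q n (z a b) = T G κ Q q n (z a' b') := by
      refine hCO V K G κ Q q n hnQ (z a b) (z a' b') π (fun i k hik => ⟨?_, ?_⟩) fun i => ?_
      · exact not_le.1 (hfar i k hik)
      · exact not_le.1 fun h => hfar i k hik ((hD i k).2 h)
      · obtain ⟨I, hI⟩ : ∃ I : Finset (Fin n), ∀ k, k ∈ I ↔ π k = π i :=
          ⟨Finset.univ.filter (fun k => π k = π i), fun k => by simp⟩
        have hi : i ∈ I := (hI i).2 rfl
        have e1 : (fun k => if π k = π i then z a b k else z a b i) =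
            fun k => if k ∈ I then z a b k else z a b i := by
          funext k
          by_cases hk : π k = π i
          · rw [if_pos hk, if_pos ((hI k).2 hk)]
          · rw [if_neg hk, if_neg fun h => hk ((hI k).1 h)]
        have e2 : (fun k => if π k = π i then z a' b' k else z a' b' i) =
            fun k => if k ∈ I then z a' b' k else z a' b' i := by
          funext k
          by_cases hk : π k = π i
          · rw [if_pos hk, if_pos ((hI k).2 hk)]
          · rw [if_neg hk, if_neg fun h => hk ((hI k).1 h)]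
        rw [e1, e2]
        have hr : ∀ k ∈ I, H.Reachable i k := fun k hk => (hπ i k).1 ((hI k).1 hk).symm
        have h1 := hY2 I i (T G κ Q q n fun k => if k ∈ I then z a b k else z a b i) hi a b
          fun k hk => edist_reach G (6 * 6 ^ q) (z a b) H hHz (hr k hk)
        have h2 := hY2 I i (T G κ Q q n fun k => if k ∈ I then z a b k else z a b i) hi a' b'
          fun k hk => edist_reach G (6 * 6 ^ q) (z a' b') H hHz' (hr k hk)
        exact (h2.1 ((hYY _ _ _ hi).1 (h1.2 rfl))).symm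
    have hO := hTO V K G κ Q q n (z a b) (z a' b') hTT
    show O G κ q n (z a b) ∈ Θ ↔ O G κ q n (z a' b') ∈ Θ
    rw [hO]

end Pool.Agent.N768.ND
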